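import Pool.Agent.H10.CM.FStmts

set_option autoImplicit false

/-!
# MP_47888e_al, block FIELDS, module DER: the derivations of `E(x)`
-/

open Polynomial

namespace Pool.CM

namespace DER

variable {X : Idx} {E : Type} [Field E] {A : PF X E}

/-- the derivation of `E[X]` underlying `A.ext.D j` -/
private noncomputable def dd (A : PF X E) : Option A.J → Derivation ℤ E[X] E[X]
  | none => nabP E
  | some j => dCoeff (A.D j)

private theorem D_eq (A : PF X E) (j : Option A.J) : A.ext.D j = fd (dd A j) := by
  cases j with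
  | none => rfl
  | some j => rfl

private theorem dd_int (hA : A.Ax) (i : X.I) (j : Option A.J) (g : E[X]) (hg : A.Int i g) :
    A.Int i (dd A j g) := by
  intro n
  cases j with
  | none =>
    change (nabP E g).coeff n ∈ _
    rw [nabP_coeff]
    exact (A.O i).mul_mem (natCast_mem (A.O i) n) (hg n)
  | some j =>
    change (dCoeff (A.D j) g).coeff n ∈ _
    rw [dCoeff_coeff]
    exact hA.D_O i j _ (hg n)

private theorem dd_coeff_zero (j : Option A.J) (g : E[X]) (n : ℕ) (h : g.coeff n = 0) :
    (dd A j g).coeff n = 0 := by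
  cases j with
  | none =>
    change (nabP E g).coeff n = 0
    rw [nabP_coeff, h, mul_zero]
  | some j =>
    change (dCoeff (A.D j) g).coeff n = 0
    rw [dCoeff_coeff, h, map_zero]

private theorem dd_pd (hA : A.Ax) (i : X.I) (d : ℕ) (j : Option A.J) (g : E[X])
    (hg : A.Pd i d g) : A.Pd i d (dd A j g) := by
  refine ⟨?_, ?_⟩
  · rw [Polynomial.natDegree_le_iff_coeff_eq_zero]
    intro n hn
    exact dd_coeff_zero j g n (Polynomial.coeff_eq_zero_of_natDegree_lt (lt_of_le_of_lt hg.1 hn))
  · intro n
    cases j with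
    | none =>
      change (nabP E g).coeff n ∈ _
      rw [nabP_coeff, ← nsmul_eq_mul]
      exact (A.pol i d).nsmul_mem (hg.2 n) n
    | some j =>
      change (dCoeff (A.D j) g).coeff n ∈ _
      rw [dCoeff_coeff]
      exact hA.D_pol i j d _ (hg.2 n)

private theorem dd_phiP (hA : A.Ax) (i : X.I) (j : Option A.J) (g : E[X]) :
    dd A j (phiP (A.phi i) (X.p i) g) =
      Polynomial.C (X.p i : E) * phiP (A.phi i) (X.p i) (dd A j g) := by
  have hp : 0 < X.p i := (X.hp i).pos
  ext n
  rw [Polynomial.coeff_C_mul, phiP_apply, phiP_apply]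
  cases j with
  | none =>
    change (nabP E _).coeff n = _ * (expand E (X.p i) ((nabP E g).map (A.phi i))).coeff n
    rw [nabP_coeff, Polynomial.coeff_expand hp, Polynomial.coeff_expand hp]
    split_ifs with h
    · rw [Polynomial.coeff_map, Polynomial.coeff_map, nabP_coeff, map_mul, map_natCast,
        ← mul_assoc, ← Nat.cast_mul, Nat.mul_div_cancel' h]
    · simp
  | some j =>
    change (dCoeff (A.D j) _).coeff n =
      _ * (expand E (X.p i) ((dCoeff (A.D j) g).map (A.phi i))).coeff n
    rw [dCoeff_coeff, Polynomial.coeff_expand hp, Polynomial.coeff_expand hp]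
    split_ifs with h
    · rw [Polynomial.coeff_map, Polynomial.coeff_map, dCoeff_coeff, hA.D_phi]
    · simp

private theorem dd_comm (hA : A.Ax) (j k : Option A.J) (g : E[X]) :
    dd A j (dd A k g) = dd A k (dd A j g) := by
  ext n
  cases j with
  | none =>
    cases k with
    | none => rfl
    | some k =>
      change (nabP E (dCoeff (A.D k) g)).coeff n = (dCoeff (A.D k) (nabP E g)).coeff n
      rw [nabP_coeff, dCoeff_coeff, dCoeff_coeff, nabP_coeff, Derivation.leibniz,
        Derivation.map_natCast, smul_zero, add_zero, smul_eq_mul]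
  | some j =>
    cases k with
    | none =>
      change (dCoeff (A.D j) (nabP E g)).coeff n = (nabP E (dCoeff (A.D j) g)).coeff n
      rw [nabP_coeff, dCoeff_coeff, dCoeff_coeff, nabP_coeff, Derivation.leibniz,
        Derivation.map_natCast, smul_zero, add_zero, smul_eq_mul]
    | some k =>
      change (dCoeff (A.D j) (dCoeff (A.D k) g)).coeff n =
        (dCoeff (A.D k) (dCoeff (A.D j) g)).coeff n
      rw [dCoeff_coeff, dCoeff_coeff, dCoeff_coeff, dCoeff_coeff, hA.D_comm]

section L

variable {R L : Type} [CommRing R] [IsDomain R] [Field L] [Algebra R L] [IsFractionRing R L]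

private theorem der_zero (Δ : Derivation ℤ L L)
    (h : ∀ g : R, Δ (algebraMap R L g) = 0) (x : L) : Δ x = 0 := by
  obtain ⟨u, w, hw, rfl⟩ := IsFractionRing.div_surjective (A := R) x
  have hw0 : algebraMap R L w ≠ 0 := by
    rw [Ne, map_eq_zero_iff _ (IsFractionRing.injective R L)]
    exact nonZeroDivisors.ne_zero hw
  have h1 : algebraMap R L u / algebraMap R L w *
      algebraMap R L w = algebraMap R L u := div_mul_cancel₀ _ hw0
  have h2 := congrArg Δ h1
  rw [Derivation.leibniz, h, h, smul_zero, zero_add, smul_eq_mul] at h2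
  exact (mul_eq_zero.1 h2).resolve_left hw0

private theorem fd_comm (d d' : Derivation ℤ R R) (hd : ∀ g, d (d' g) = d' (d g)) (x : L) :
    fd d (fd d' x) = fd d' (fd d x) := by
  have h := der_zero (R := R) ⁅(fd d : Derivation ℤ L L), fd d'⁆ (fun g => by
        rw [Derivation.commutator_apply, fd_algebraMap, fd_algebraMap, fd_algebraMap,
          fd_algebraMap, hd, sub_self]) x
  rw [Derivation.commutator_apply, sub_eq_zero] at h
  exact h

private theorem fd_quot (d : Derivation ℤ R R) (x : L) (g h : R)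
    (e : x * algebraMap R L h = algebraMap R L g) :
    fd d x * algebraMap R L (h * h) = algebraMap R L (d g * h - g * d h) := by
  have h1 := congrArg (fd d) e
  rw [Derivation.leibniz, fd_algebraMap, fd_algebraMap, smul_eq_mul, smul_eq_mul] at h1
  rw [map_sub, map_mul, map_mul, map_mul, ← h1, ← e]
  ring

private theorem fd_phi (d : Derivation ℤ R R) (φ : L →+* L) (q : L)
    (hφ : ∀ g : R, fd d (φ (algebraMap R L g)) = q * φ (fd d (algebraMap R L g))) (x : L) :
    fd d (φ x) = q * φ (fd d x) := by
  obtain ⟨u, w, hw, hx⟩ := IsFractionRing.div_surjective (A := R) x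
  have hw0 : algebraMap R L w ≠ 0 := by
    rw [Ne, map_eq_zero_iff _ (IsFractionRing.injective R L)]
    exact nonZeroDivisors.ne_zero hw
  have h1 : x * algebraMap R L w = algebraMap R L u := by
    rw [← hx]
    exact div_mul_cancel₀ _ hw0
  have ku := hφ u
  have kw := hφ w
  rw [← h1] at ku
  rw [map_mul, Derivation.leibniz, Derivation.leibniz, kw] at ku
  simp only [smul_eq_mul, map_add, map_mul] at ku
  have hφw : φ (algebraMap R L w) ≠ 0 := by
    rw [Ne, map_eq_zero]
    exact hw0
  apply mul_left_cancel₀ hφw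
  linear_combination ku

end L

private theorem p1 (hA : A.Ax) (i : X.I) (j : Option A.J) (x : RatFunc E)
    (hx : x ∈ A.ext.O i) : fd (dd A j) x ∈ A.ext.O i := by
  obtain ⟨g, hg, h, hh, e⟩ := hx
  refine ⟨dd A j g * h - g * dd A j h, ?_, h * h, (A.primS i).mul_mem hh hh, ?_⟩
  · rw [sub_eq_add_neg]
    exact PF.Int.add A (PF.Int.mul A (dd_int hA i j g hg) (PF.Int.of_primS A hh))
      (PF.Int.neg A (PF.Int.mul A hg (dd_int hA i j h (PF.Int.of_primS A hh))))
  · exact fd_quot _ x g h e

private theorem p2 (hA : A.Ax) (i : X.I) (d : ℕ) (j : Option A.J) (x : RatFunc E)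
    (hx : x ∈ A.ext.pol i d) : fd (dd A j) x ∈ A.ext.pol i d := by
  obtain ⟨g, hg, rfl⟩ := hx
  rw [fd_algebraMap]
  exact ⟨dd A j g, dd_pd hA i d j g hg, rfl⟩

private theorem p3 (hA : A.Ax) (i : X.I) (j : Option A.J) (x : RatFunc E) :
    fd (dd A j) (phiR (A.phi i) (X.p i) (X.hp i).pos x) =
      (X.p i : RatFunc E) * phiR (A.phi i) (X.p i) (X.hp i).pos (fd (dd A j) x) := by
  refine fd_phi _ _ _ (fun g => ?_) x
  rw [phiR_algebraMap, fd_algebraMap, fd_algebraMap, phiR_algebraMap]
  refine (congrArg (algebraMap E[X] (RatFunc E)) (dd_phiP hA i j g)).trans ?_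
  rw [map_mul]
  refine congrArg (· * _) ?_
  rw [map_natCast, map_natCast]

private theorem p4 (hA : A.Ax) (j k : Option A.J) (x : RatFunc E) :
    fd (dd A j) (fd (dd A k) x) = fd (dd A k) (fd (dd A j) x) :=
  fd_comm _ _ (dd_comm hA j k) x

end DER

open DER in
theorem der (_hV : VALUStmt) (_hG : GAUStmt) : DERStmt := by
  intro X E _ A hA
  refine ⟨?_, ?_, ?_, ?_⟩
  · intro i j x hx
    rw [D_eq]
    exact p1 hA i j x hx
  · intro i j d x hx
    rw [D_eq]
    exact p2 hA i d j x hx
  · intro i j x
    rw [D_eq]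
    exact p3 hA i j x
  · intro j k x
    rw [D_eq, D_eq]
    exact p4 hA j k x

end Pool.CM
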