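import Pool.Agent.H10.CM.FStmts

set_option autoImplicit false

/-!
# MP_47888e_al, block FIELDS, module FIX: fixed elements of `E(x)` have bounded degree
-/

open Polynomial

namespace Pool.CM

namespace FIX

variable {X : Idx} {E : Type} [Field E] {A : PF X E}

private theorem common [DecidableEq E] (hA : A.Ax) (S : Finset E) (hS : ∀ c ∈ S, c ≠ 0) :
    ∃ d : ℕ, X.Ev fun i => ∃ P ∈ A.den i d, ∀ c ∈ S, c * P ∈ A.den i d := by
  induction S using Finset.induction_on with
  | empty =>
    refine ⟨0, Idx.Ev.of_forall fun i => ⟨1, hA.den_one i, ?_⟩⟩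
    intro c hc
    exact absurd hc (Finset.notMem_empty c)
  | insert a s ha ih =>
    obtain ⟨d, hd⟩ := ih (fun c hc => hS c (Finset.mem_insert_of_mem hc))
    obtain ⟨e, he⟩ := hA.fixed a (hS a (Finset.mem_insert_self a s))
    refine ⟨d + e, (hd.and he).mono ?_⟩
    rintro i ⟨⟨P, hP, hPc⟩, g, hg, h, hh, hgh⟩
    refine ⟨P * h, hA.den_mul i d e P h hP hh, ?_⟩
    intro c hc
    rcases Finset.mem_insert.1 hc with rfl | hc
    · have : c * (P * h) = P * g := by rw [← hgh]; ring
      rw [this]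
      exact hA.den_mul i d e P g hP hg
    · rw [← mul_assoc]
      exact hA.den_mul i d e _ h (hPc c hc) hh

private theorem mem_den (hA : A.Ax) (i : X.I) (d : ℕ) (G : E[X]) (hG : G ≠ 0) (P : E)
    (hdeg : G.natDegree ≤ d)
    (h : ∀ n, G.coeff n ≠ 0 → G.coeff n * P ∈ A.den i d) :
    algebraMap E[X] (RatFunc E) (G * Polynomial.C P) ∈ A.ext.den i d := by
  refine ⟨G * Polynomial.C P, ⟨(Polynomial.natDegree_mul_C_le G P).trans hdeg, ?_⟩,
    ⟨G.natTrailingDegree, ?_, ?_⟩, rfl⟩
  · intro n
    rw [Polynomial.coeff_mul_C]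
    by_cases h0 : G.coeff n = 0
    · rw [h0, zero_mul]
      exact (A.pol i d).zero_mem
    · exact hA.den_pol i d _ (h n h0)
  · rw [Polynomial.coeff_mul_C]
    exact h _ (by
      have := Polynomial.trailingCoeff_nonzero_iff_nonzero.2 hG
      exact this)
  · intro m hm
    rw [Polynomial.coeff_mul_C, Polynomial.coeff_eq_zero_of_lt_natTrailingDegree hm, zero_mul]

end FIX

open FIX in
theorem fix (_hV : VALUStmt) : FIXStmt := by
  classical
  intro X E _ A hA x hx
  obtain ⟨G, H, hH, rfl⟩ := IsFractionRing.div_surjective (A := E[X]) x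
  have hH0 : H ≠ 0 := nonZeroDivisors.coe_ne_zero ⟨H, hH⟩
  have hG0 : G ≠ 0 := by
    rintro rfl
    exact hx (by rw [map_zero, zero_div])
  obtain ⟨d, hd⟩ := common hA (G.support.image G.coeff ∪ H.support.image H.coeff) (by
    intro c hc
    rcases Finset.mem_union.1 hc with hc | hc
    · obtain ⟨n, hn, rfl⟩ := Finset.mem_image.1 hc
      exact Polynomial.mem_support_iff.1 hn
    · obtain ⟨n, hn, rfl⟩ := Finset.mem_image.1 hc
      exact Polynomial.mem_support_iff.1 hn)
  refine ⟨max d (max G.natDegree H.natDegree), hd.mono ?_⟩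
  rintro i ⟨P, hP, hPc⟩
  have hdd : d ≤ max d (max G.natDegree H.natDegree) := le_max_left _ _
  refine ⟨algebraMap E[X] (RatFunc E) (G * Polynomial.C P), ?_,
    algebraMap E[X] (RatFunc E) (H * Polynomial.C P), ?_, ?_⟩
  · refine mem_den hA i _ G hG0 P ((le_max_left _ _).trans (le_max_right _ _)) ?_
    intro n hn
    exact hA.den_mono i _ _ hdd (hPc _ (Finset.mem_union_left _
      (Finset.mem_image_of_mem _ (Polynomial.mem_support_iff.2 hn))))
  · refine mem_den hA i _ H hH0 P ((le_max_right _ _).trans (le_max_right _ _)) ?_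
    intro n hn
    exact hA.den_mono i _ _ hdd (hPc _ (Finset.mem_union_right _
      (Finset.mem_image_of_mem _ (Polynomial.mem_support_iff.2 hn))))
  · have hH1 : algebraMap E[X] (RatFunc E) H ≠ 0 := by
      rw [Ne, map_eq_zero_iff _ (IsFractionRing.injective E[X] (RatFunc E))]
      exact hH0
    rw [map_mul, map_mul, ← mul_assoc, div_mul_cancel₀ _ hH1]

end Pool.CM
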