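import Pool.Agent.H10.CM.FStmts

set_option autoImplicit false

/-!
# MP_47888e_al, block FIELDS, module GAU: the Gauss ring
-/

open Polynomial

namespace Pool.CM

namespace GAU

variable {X : Idx} {E : Type} [Field E] {A : PF X E}

private theorem p_ne (hA : A.Ax) (i : X.I) : (X.p i : E) ≠ 0 := by
  intro h
  apply hA.p_inv i
  rw [h, inv_zero]
  exact (A.O i).zero_mem

private theorem p_mem (i : X.I) : (X.p i : E) ∈ A.O i := natCast_mem (A.O i) (X.p i)

private theorem prim_one (i : X.I) : A.Prim i 1 := by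
  refine ⟨PF.Int.one A, 0, ?_⟩
  rw [Polynomial.coeff_one_zero]
  exact ⟨one_ne_zero, (A.O i).one_mem, by rw [inv_one]; exact (A.O i).one_mem⟩

private theorem prim_of_primS (hP : PRMStmt) (hA : A.Ax) (i : X.I) (h : E[X])
    (hh : h ∈ A.primS i) : A.Prim i h := by
  induction hh using Submonoid.closure_induction with
  | mem x hx => exact hx
  | one => exact prim_one i
  | mul x y _ _ hx hy => exact hP X E A hA i x y hx hy

private theorem part1 (hP : PRMStmt) (hA : A.Ax) (i : X.I) (x : RatFunc E) :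
    x ∈ A.ext.O i ↔ ∃ g h : E[X], A.Int i g ∧ A.Prim i h ∧
      x * algebraMap E[X] (RatFunc E) h = algebraMap E[X] (RatFunc E) g := by
  constructor
  · rintro ⟨g, hg, h, hh, e⟩
    exact ⟨g, h, hg, prim_of_primS hP hA i h hh, e⟩
  · rintro ⟨g, h, hg, hh, e⟩
    exact ⟨g, hg, h, Submonoid.subset_closure hh, e⟩

private theorem part2 (hA : A.Ax) (i : X.I) (g : E[X]) (hg : g ≠ 0) :
    ∃ k : ℤ, A.Prim i (Polynomial.C ((X.p i : E) ^ k) * g) := by
  have hp := p_ne hA i
  have hs : ∀ n : ℕ, ∃ k : ℤ, g.coeff n ≠ 0 → A.Un i (g.coeff n * (X.p i : E) ^ k) := by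
    intro n
    by_cases h : g.coeff n = 0
    · exact ⟨0, fun h' => (h' h).elim⟩
    · obtain ⟨k, hk⟩ := hA.scale i _ h
      exact ⟨k, fun _ => hk⟩
  choose k hk using hs
  have hne : g.support.Nonempty := Polynomial.support_nonempty.2 hg
  obtain ⟨m, hm, hmax⟩ := Finset.exists_max_image g.support k hne
  refine ⟨k m, ?_, m, ?_⟩
  · intro n
    rw [Polynomial.coeff_C_mul]
    by_cases h : g.coeff n = 0
    · rw [h, mul_zero]
      exact (A.O i).zero_mem
    · have h1 := (hk n h).2.1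
      have h2 := hmax n (Polynomial.mem_support_iff.2 h)
      obtain ⟨e, he⟩ := Int.eq_ofNat_of_zero_le (sub_nonneg.2 h2)
      have h3 : (X.p i : E) ^ k m * g.coeff n =
          (X.p i : E) ^ e * (g.coeff n * (X.p i : E) ^ k n) := by
        have : k m = k n + e := by omega
        rw [this, zpow_add₀ hp, zpow_natCast]
        ring
      rw [h3]
      exact (A.O i).mul_mem ((A.O i).pow_mem (p_mem i) e) h1
  · rw [Polynomial.coeff_C_mul, mul_comm]
    exact hk m (Polynomial.mem_support_iff.1 hm)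

private theorem part3 (i : X.I) (g : E[X]) (hg : A.Prim i g) :
    A.ext.Un i (algebraMap E[X] (RatFunc E) g) := by
  have hg0 : g ≠ 0 := by
    rintro rfl
    obtain ⟨n, hn⟩ := hg.2
    exact hn.1 (Polynomial.coeff_zero n)
  have hg1 : algebraMap E[X] (RatFunc E) g ≠ 0 := by
    rw [Ne, map_eq_zero_iff _ (IsFractionRing.injective E[X] (RatFunc E))]
    exact hg0
  refine ⟨hg1, ?_, ?_⟩
  · exact ⟨g, hg.1, 1, (A.primS i).one_mem, by simp⟩
  · refine ⟨1, PF.Int.one A, g, Submonoid.subset_closure hg, ?_⟩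
    rw [inv_mul_cancel₀ hg1, map_one]

private theorem part4 (hV : VALUStmt) (hP : PRMStmt) (hA : A.Ax) (i : X.I) (g : E[X])
    (hg : algebraMap E[X] (RatFunc E) g ∈ A.ext.O i) : A.Int i g := by
  have hp := p_ne hA i
  by_cases hg0 : g = 0
  · rw [hg0]
    exact PF.Int.zero A
  obtain ⟨g', h, hg', hh, e⟩ := (part1 hP hA i _).1 hg
  rw [← map_mul] at e
  have e' : g * h = g' := IsFractionRing.injective E[X] (RatFunc E) e
  obtain ⟨k, hk⟩ := part2 hA i g hg0
  have h1 : A.Prim i (Polynomial.C ((X.p i : E) ^ k) * g * h) := hP X E A hA i _ _ hk hh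
  rw [mul_assoc, e'] at h1
  obtain ⟨n, hn⟩ := h1.2
  rw [Polynomial.coeff_C_mul] at hn
  rcases le_or_gt k 0 with hk0 | hk0
  · intro m
    have h2 := hk.1 m
    rw [Polynomial.coeff_C_mul] at h2
    obtain ⟨e, he⟩ := Int.eq_ofNat_of_zero_le (neg_nonneg.2 hk0)
    have h3 : g.coeff m = (X.p i : E) ^ e * ((X.p i : E) ^ k * g.coeff m) := by
      have : (X.p i : E) ^ e = (X.p i : E) ^ (-k) := by rw [he, zpow_natCast]
      rw [this, ← mul_assoc, ← zpow_add₀ hp]
      simp
    rw [h3]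
    exact (A.O i).mul_mem ((A.O i).pow_mem (p_mem i) e) h2
  · exfalso
    obtain ⟨-, -, hV3, -⟩ := hV X E A hA i
    refine hV3 _ ?_ hn
    obtain ⟨e, he⟩ := Int.eq_ofNat_of_zero_le (show 0 ≤ k - 1 by omega)
    refine ⟨(X.p i : E) ^ e * g'.coeff n, (A.O i).mul_mem ((A.O i).pow_mem (p_mem i) e) (hg' n), ?_⟩
    have : k = 1 + e := by omega
    rw [this, zpow_add₀ hp, zpow_natCast, zpow_one, pow_one]
    ring

end GAU

open GAU in
theorem gau (hV : VALUStmt) (hP : PRMStmt) : GAUStmt := by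
  intro X E _ A hA i
  have hp := p_ne hA i
  refine ⟨part1 hP hA i, part2 hA i, part3 i, part4 hV hP hA i, ?_⟩
  intro g M
  have hpM : (X.p i : E) ^ M ≠ 0 := pow_ne_zero _ hp
  have hcast : ((X.p i : ℕ) : RatFunc E) ^ M =
      algebraMap E[X] (RatFunc E) (Polynomial.C ((X.p i : E) ^ M)) := by
    rw [map_pow, map_pow, map_natCast, map_natCast]
  constructor
  · rintro ⟨y, hy, e⟩ n
    have h1 : y = algebraMap E[X] (RatFunc E) (Polynomial.C (((X.p i : E) ^ M)⁻¹) * g) := by
      rw [map_mul, e, hcast, ← mul_assoc, ← map_mul, ← Polynomial.C_mul, inv_mul_cancel₀ hpM,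
        Polynomial.C_1, map_one, one_mul]
    rw [h1] at hy
    have h2 := part4 hV hP hA i _ hy n
    rw [Polynomial.coeff_C_mul] at h2
    exact ⟨_, h2, by rw [← mul_assoc, mul_inv_cancel₀ hpM, one_mul]⟩
  · intro h
    refine ⟨algebraMap E[X] (RatFunc E) (Polynomial.C (((X.p i : E) ^ M)⁻¹) * g), ?_, ?_⟩
    · refine (part1 hP hA i _).2 ⟨Polynomial.C (((X.p i : E) ^ M)⁻¹) * g, 1, ?_, prim_one i,
        by rw [map_one, mul_one]⟩
      intro n
      obtain ⟨y, hy, e⟩ := h n
      rw [Polynomial.coeff_C_mul, e, ← mul_assoc, inv_mul_cancel₀ hpM, one_mul]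
      exact hy
    · rw [hcast, ← map_mul, ← mul_assoc, ← Polynomial.C_mul, mul_inv_cancel₀ hpM,
        Polynomial.C_1, one_mul]

end Pool.CM
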