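import Pool.Agent.H10.CM.FStmts

set_option autoImplicit false

/-!
# MP_47888e_al, block FIELDS, module HGT: heights in `E(x)`
-/

open Polynomial

namespace Pool.CM

namespace HGT

variable {X : Idx} {E : Type} [Field E] {A : PF X E}

private theorem p_ne (hA : A.Ax) (i : X.I) : (X.p i : E) ≠ 0 := by
  intro h
  apply hA.p_inv i
  rw [h, inv_zero]
  exact (A.O i).zero_mem

private theorem p_mem (i : X.I) : (X.p i : E) ∈ A.O i := natCast_mem (A.O i) (X.p i)

/-- the `n`-th coefficient polynomial of a bivariate polynomial -/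
private noncomputable def cf (ψ : E[X][X]) (n : ℕ) : E[X] :=
  ∑ j ∈ ψ.support, monomial j ((ψ.coeff j).coeff n)

private theorem cf_eval (ψ : E[X][X]) (n : ℕ) (y : ℤ) :
    (cf ψ n).eval (y : E) = (ψ.eval (y : E[X])).coeff n := by
  unfold cf
  rw [Polynomial.eval_finsetSum, Polynomial.eval_eq_sum, Polynomial.sum_def,
    Polynomial.finsetSum_coeff]
  refine Finset.sum_congr rfl fun j _ => ?_
  have h : ((y : E[X]) ^ j) = Polynomial.C ((y : E) ^ j) := by
    rw [map_pow, map_intCast]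
  rw [Polynomial.eval_monomial, h, Polynomial.coeff_mul_C]

private theorem zpow_mem_nonneg (hA : A.Ax) (i : X.I) (k : ℤ) (h : (X.p i : E) ^ k ∈ A.O i) :
    0 ≤ k := by
  by_contra hk
  obtain ⟨m, hm⟩ := Int.eq_ofNat_of_zero_le (show 0 ≤ -k - 1 by omega)
  apply hA.p_inv i
  have hp := p_ne hA i
  have h1 : ((X.p i : ℕ) : E)⁻¹ = (X.p i : E) ^ m * (X.p i : E) ^ k := by
    rw [← zpow_natCast, ← zpow_add₀ hp, ← zpow_neg_one]
    congr 1
    omega
  rw [h1]
  exact (A.O i).mul_mem ((A.O i).pow_mem (p_mem i) m) h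

end HGT

open HGT in
theorem hgt (_hV : VALUStmt) (hG : GAUStmt) : HGTStmt := by
  intro X E _ A hA χ hχ
  obtain ⟨H, hH, hψ⟩ := IsLocalization.integerNormalization_spec (nonZeroDivisors E[X]) χ
  generalize IsLocalization.integerNormalization (nonZeroDivisors E[X]) χ = ψ at hψ
  have hH0 : H ≠ 0 := nonZeroDivisors.ne_zero hH
  have hinj := IsFractionRing.injective E[X] (RatFunc E)
  have hH1 : algebraMap E[X] (RatFunc E) H ≠ 0 := by
    rw [Ne, map_eq_zero_iff _ hinj]
    exact hH0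
  have hev : ∀ y : ℤ, algebraMap E[X] (RatFunc E) (ψ.eval (y : E[X])) =
      algebraMap E[X] (RatFunc E) H * χ.eval (y : RatFunc E) := by
    intro y
    have h1 : (ψ.map (algebraMap E[X] (RatFunc E))).eval (y : RatFunc E) =
        algebraMap E[X] (RatFunc E) (ψ.eval (y : E[X])) := by
      rw [Polynomial.eval_intCast_map]
    rw [← h1, hψ, Polynomial.eval_smul, Algebra.smul_def]
  -- constants
  have hc : ∀ n : ℕ, ∃ c : ℕ, cf ψ n ≠ 0 → ∀ C : ℕ, X.Ev fun i => ∀ y : ℤ,
      |y| ≤ (C : ℤ) * X.p i → (cf ψ n).eval (y : E) ≠ 0 →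
      (X.p i : E) ^ c * ((cf ψ n).eval (y : E))⁻¹ ∈ A.O i := by
    intro n
    by_cases h : cf ψ n = 0
    · exact ⟨0, fun h' => (h' h).elim⟩
    · obtain ⟨c, hc⟩ := hA.pf4 _ h
      exact ⟨c, fun _ => hc⟩
  choose c hc using hc
  let N : ℕ := ψ.support.sup fun j => (ψ.coeff j).natDegree
  have hN : ∀ (y : ℤ) (n : ℕ), (ψ.eval (y : E[X])).coeff n ≠ 0 → n ≤ N := by
    intro y n hn
    by_contra hlt
    push Not at hlt
    apply hn
    rw [← cf_eval]
    have : cf ψ n = 0 := by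
      unfold cf
      refine Finset.sum_eq_zero fun j hj => ?_
      have h2 : (ψ.coeff j).natDegree ≤ N :=
        Finset.le_sup (f := fun j => (ψ.coeff j).natDegree) hj
      rw [Polynomial.coeff_eq_zero_of_natDegree_lt (lt_of_le_of_lt h2 hlt), monomial_zero_right]
    rw [this, Polynomial.eval_zero]
  refine ⟨(Finset.range (N + 1)).sup c, fun C => ?_⟩
  have hE1 : X.Ev fun i => ∀ n ∈ Finset.range (N + 1), cf ψ n ≠ 0 → ∀ y : ℤ,
      |y| ≤ (C : ℤ) * X.p i → (cf ψ n).eval (y : E) ≠ 0 →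
      (X.p i : E) ^ c n * ((cf ψ n).eval (y : E))⁻¹ ∈ A.O i := by
    refine Idx.Ev.allFinset _ fun n _ => ?_
    by_cases h : cf ψ n = 0
    · exact Idx.Ev.of_forall fun i h' => (h' h).elim
    · exact (hc n h C).mono fun i hi _ => hi
  have hE2 : X.Ev fun i => ∀ n ∈ H.support, A.Un i (H.coeff n) :=
    Idx.Ev.allFinset _ fun n hn => hA.pf2 _ (Polynomial.mem_support_iff.1 hn)
  refine (hE1.and hE2).mono ?_
  rintro i ⟨h1, h2⟩ y hy hχy
  obtain ⟨G1, G2, -, -, -⟩ := hG X E A hA i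
  have hp := p_ne hA i
  have hHint : A.Int i H := by
    intro n
    by_cases h : H.coeff n = 0
    · rw [h]
      exact (A.O i).zero_mem
    · exact (h2 n (Polynomial.mem_support_iff.2 h)).2.1
  have hf : ψ.eval (y : E[X]) ≠ 0 := by
    intro h
    have := hev y
    rw [h, map_zero] at this
    exact mul_ne_zero hH1 hχy this.symm
  obtain ⟨k, hk⟩ := G2 _ hf
  obtain ⟨n, hn⟩ : ∃ n, (ψ.eval (y : E[X])).coeff n ≠ 0 := by
    by_contra h
    push Not at h
    exact hf (Polynomial.ext fun n => by rw [h n, Polynomial.coeff_zero])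
  have hnN := hN y n hn
  have hcfn : cf ψ n ≠ 0 := by
    intro h
    apply hn
    rw [← cf_eval, h, Polynomial.eval_zero]
  have h3 := h1 n (Finset.mem_range.2 (Nat.lt_succ_of_le hnN)) hcfn y hy
    (by rw [cf_eval]; exact hn)
  rw [cf_eval] at h3
  set c' := (Finset.range (N + 1)).sup c with hc'
  have hcc : c n ≤ c' := Finset.le_sup (f := c) (Finset.mem_range.2 (Nat.lt_succ_of_le hnN))
  have h4 : 0 ≤ k + c' := by
    apply zpow_mem_nonneg hA i
    have h5 := hk.1 n
    rw [Polynomial.coeff_C_mul] at h5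
    have h6 := (A.O i).mul_mem ((A.O i).mul_mem h5 h3)
      ((A.O i).pow_mem (p_mem i) (c' - c n))
    have h7 : (X.p i : E) ^ k * (ψ.eval (y : E[X])).coeff n *
        ((X.p i : E) ^ c n * ((ψ.eval (y : E[X])).coeff n)⁻¹) * (X.p i : E) ^ (c' - c n) =
        (X.p i : E) ^ (k + c') := by
      have h8 : (X.p i : E) ^ c' = (X.p i : E) ^ c n * (X.p i : E) ^ (c' - c n) := by
        rw [← pow_add]
        congr 1
        omega
      rw [zpow_add₀ hp, zpow_natCast, h8]
      field_simp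
    rw [h7] at h6
    exact h6
  obtain ⟨m, hm⟩ := Int.eq_ofNat_of_zero_le h4
  refine (G1 _).2 ⟨Polynomial.C ((X.p i : E) ^ m) * H,
    Polynomial.C ((X.p i : E) ^ k) * ψ.eval (y : E[X]), ?_, hk, ?_⟩
  · intro l
    rw [Polynomial.coeff_C_mul]
    exact (A.O i).mul_mem ((A.O i).pow_mem (p_mem i) m) (hHint l)
  · have hm' : (X.p i : E) ^ m = (X.p i : E) ^ c' * (X.p i : E) ^ k := by
      rw [← zpow_natCast, ← zpow_natCast, ← zpow_add₀ hp]
      congr 1
      omega
    have hcast : ((X.p i : ℕ) : RatFunc E) ^ c' =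
        algebraMap E[X] (RatFunc E) (Polynomial.C ((X.p i : E) ^ c')) := by
      rw [map_pow, map_pow, map_natCast, map_natCast]
    rw [hm', map_mul, map_mul, hev, Polynomial.C_mul, map_mul, hcast]
    field_simp

end Pool.CM
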